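import Pool.Agent.K1H20.RS.Stm
import Pool.Agent.Y229.SP4
import Mathlib.Algebra.DualNumber
import Mathlib.Algebra.Polynomial.Taylor
import Mathlib.RingTheory.MvPowerSeries.Inverse

/-! # Formal coordinates for the resultant (piece CH) -/

set_option autoImplicit false
set_option linter.dupNamespace false
set_option linter.unusedSectionVars false

namespace Pool.Agent.K1H74.RS

open Pool.Agent.H628R4.TP Pool.Agent.K1H20.RS Pool.Agent.Y229.GL
open Polynomial (C X)

section poly

variable {R S : Type*} [CommRing R] [CommRing S] {k q : ℕ}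

/-- `∏ (T - ρ_j)` -/
noncomputable def rt (ρ : Fin k → R) : Polynomial R := ∏ j, (X - C (ρ j))

/-- `c ∏ (T - ρ_j)` -/
noncomputable def gg (c : R) (ρ : Fin k → R) : Polynomial R := C c * rt ρ

/-- `∑_j z_j ∏_{i ≠ j} (T - ρ_i) + (∑ w_i T^i) ∏ (T - ρ_j)` -/
noncomputable def ff (ρ z : Fin k → R) (w : Fin q → R) : Polynomial R :=
  ∑ j, C (z j) * ∏ i ∈ Finset.univ.erase j, (X - C (ρ i)) + pl w * rt ρ

lemma map_rt (φ : R →+* S) (ρ : Fin k → R) : (rt ρ).map φ = rt fun j => φ (ρ j) := by
  unfold rt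
  rw [Polynomial.map_prod]
  simp

lemma map_gg (φ : R →+* S) (c : R) (ρ : Fin k → R) :
    (gg c ρ).map φ = gg (φ c) fun j => φ (ρ j) := by
  unfold gg
  rw [Polynomial.map_mul, map_rt, Polynomial.map_C]

lemma map_ff (φ : R →+* S) (ρ z : Fin k → R) (w : Fin q → R) :
    (ff ρ z w).map φ = ff (fun j => φ (ρ j)) (fun j => φ (z j)) fun i => φ (w i) := by
  unfold ff
  rw [Polynomial.map_add, Polynomial.map_mul, map_rt, pl_map, Polynomial.map_sum]
  congr 1
  refine Finset.sum_congr rfl fun j _ => ?_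
  rw [Polynomial.map_mul, Polynomial.map_C, Polynomial.map_prod]
  simp

lemma monic_rt (ρ : Fin k → R) : (rt ρ).Monic :=
  Polynomial.monic_prod_of_monic _ _ fun _ _ => Polynomial.monic_X_sub_C _

lemma natDegree_rt [Nontrivial R] (ρ : Fin k → R) : (rt ρ).natDegree = k := by
  unfold rt
  rw [Polynomial.natDegree_prod_of_monic _ _ fun j _ => Polynomial.monic_X_sub_C _]
  simp

lemma natDegree_pl_le {n : ℕ} (a : Fin (n + 1) → R) : (pl a).natDegree ≤ n := by
  unfold pl
  refine Polynomial.natDegree_sum_le_of_forall_le _ _ fun i _ => ?_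
  exact (Polynomial.natDegree_C_mul_X_pow_le _ _).trans (Nat.lt_succ_iff.1 i.2)

lemma natDegree_ff [Nontrivial R] {l : ℕ} (hk : 1 ≤ k) (hl : k ≤ l + 1) (hq : q = l + 1 - k)
    (ρ z : Fin k → R) (w : Fin q → R) : (ff ρ z w).natDegree ≤ l := by
  unfold ff
  refine (Polynomial.natDegree_add_le _ _).trans (max_le ?_ ?_)
  · refine Polynomial.natDegree_sum_le_of_forall_le _ _ fun j _ => ?_
    refine (Polynomial.natDegree_C_mul_le _ _).trans ?_
    refine (Polynomial.natDegree_prod_le _ _).trans ?_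
    simp only [Polynomial.natDegree_X_sub_C, Finset.sum_const, smul_eq_mul, mul_one,
      Finset.card_erase_of_mem (Finset.mem_univ _), Finset.card_univ, Fintype.card_fin]
    omega
  · rcases Nat.eq_zero_or_pos q with h | h
    · subst h
      have : pl w = 0 := by simp [pl]
      rw [this, zero_mul, Polynomial.natDegree_zero]
      exact Nat.zero_le _
    · refine Polynomial.natDegree_mul_le.trans ?_
      rw [natDegree_rt]
      obtain ⟨q', rfl⟩ : ∃ q', q = q' + 1 := ⟨q - 1, by omega⟩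
      have := natDegree_pl_le w
      omega

lemma eval_rt (ρ : Fin k → R) (j : Fin k) : (rt ρ).eval (ρ j) = 0 := by
  unfold rt
  rw [Polynomial.eval_prod]
  exact Finset.prod_eq_zero (Finset.mem_univ j) (by simp)

lemma eval_ff (ρ z : Fin k → R) (w : Fin q → R) (j : Fin k) :
    (ff ρ z w).eval (ρ j) = z j * ∏ i ∈ Finset.univ.erase j, (ρ j - ρ i) := by
  unfold ff
  rw [Polynomial.eval_add, Polynomial.eval_mul, eval_rt, mul_zero, add_zero,
    Polynomial.eval_finsetSum, Finset.sum_eq_single j]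
  · rw [Polynomial.eval_mul, Polynomial.eval_C, Polynomial.eval_prod]
    simp
  · intro i _ hij
    rw [Polynomial.eval_mul, Polynomial.eval_prod,
      Finset.prod_eq_zero (Finset.mem_erase.2 ⟨fun h => hij h.symm, Finset.mem_univ j⟩) (by simp),
      mul_zero]
  · intro h
    exact absurd (Finset.mem_univ j) h

/-- the polynomial with the coefficients of `p` -/
lemma pl_coeff {n : ℕ} (p : Polynomial R) (hp : p.natDegree ≤ n) :
    (pl fun i : Fin (n + 1) => p.coeff i) = p := by
  unfold pl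
  rw [Fin.sum_univ_eq_sum_range (fun i => C (p.coeff i) * X ^ i) (n + 1)]
  exact (Polynomial.as_sum_range_C_mul_X_pow' p (Nat.lt_succ_iff.2 hp)).symm

/-- the coefficients of `f` and `g` -/
noncomputable def co (l : ℕ) (c : R) (ρ z : Fin k → R) (w : Fin q → R) : Co l k → R :=
  Sum.elim (fun i => (ff ρ z w).coeff i) (fun i => (gg c ρ).coeff i)

lemma map_co (φ : R →+* S) (l : ℕ) (c : R) (ρ z : Fin k → R) (w : Fin q → R) (i : Co l k) :
    φ (co l c ρ z w i) =
      co l (φ c) (fun j => φ (ρ j)) (fun j => φ (z j)) (fun i => φ (w i)) i := by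
  rcases i with i | i
  · show φ ((ff ρ z w).coeff i) = _
    rw [← Polynomial.coeff_map, map_ff]
    rfl
  · show φ ((gg c ρ).coeff i) = _
    rw [← Polynomial.coeff_map, map_gg]
    rfl

lemma rs_co [Nontrivial R] {l : ℕ} (hk : 1 ≤ k) (hl : k ≤ l + 1) (hq : q = l + 1 - k)
    (c : R) (ρ z : Fin k → R) (w : Fin q → R) :
    rs l k (co l c ρ z w) = (c ^ l * ∏ j, ((-1) ^ l * ∏ i ∈ Finset.univ.erase j, (ρ j - ρ i))) *
      ∏ j, z j := by
  have h1 : (pl fun i : Fin (l + 1) => co l c ρ z w (Sum.inl i)) = ff ρ z w :=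
    pl_coeff _ (natDegree_ff hk hl hq ρ z w)
  have h2 : (pl fun j : Fin (k + 1) => co l c ρ z w (Sum.inr j)) = gg c ρ := by
    refine pl_coeff _ ?_
    show (C c * rt ρ).natDegree ≤ k
    refine (Polynomial.natDegree_C_mul_le _ _).trans ?_
    rw [natDegree_rt]
  unfold rs
  rw [h1, h2]
  unfold gg
  rw [Polynomial.resultant_C_mul_right]
  have h3 := Polynomial.resultant_prod_right (Finset.univ : Finset (Fin k)) (ff ρ z w)
    (fun j => X - C (ρ j)) l (natDegree_ff hk hl hq ρ z w) (by simp)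
  have h4 : (∏ j, (X - C (ρ j))).natDegree = k := natDegree_rt ρ
  rw [h4] at h3
  have h5 : rt ρ = ∏ j, (X - C (ρ j)) := rfl
  rw [h5, h3, mul_assoc, ← Finset.prod_mul_distrib]
  congr 1
  refine Finset.prod_congr rfl fun j _ => ?_
  rw [Polynomial.natDegree_X_sub_C, Polynomial.resultant_X_sub_C_right _ _ _
    (natDegree_ff hk hl hq ρ z w), eval_ff]
  ring

end poly

/-! ## The tangent space -/

section dual

open TrivSqZeroExt

variable {k q : ℕ}

/-- an element without infinitesimal part -/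
def Real' (x : DualNumber ℂ) : Prop := ∃ c : ℂ, x = inl c

lemma Real'.eq {x : DualNumber ℂ} (h : Real' x) : x = inl (fst x) := by
  obtain ⟨c, rfl⟩ := h
  rw [fst_inl]

lemma Real'.inr {v : ℂ} {c : ℂ} (h : Real' (TrivSqZeroExt.inl c + TrivSqZeroExt.inr v)) : v = 0 := by
  obtain ⟨d, hd⟩ := h
  have := congrArg snd hd
  simpa using this

lemma eps_sq (v : ℂ) : ((TrivSqZeroExt.inr v : DualNumber ℂ)) ^ 2 = 0 := by
  rw [sq, inr_mul_inr]

/-- the real part -/
noncomputable def re' : DualNumber ℂ →+* ℂ := (TrivSqZeroExt.fstHom ℂ ℂ ℂ : DualNumber ℂ →ₐ[ℂ] ℂ)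

lemma re'_apply (x : DualNumber ℂ) : re' x = fst x := rfl

/-- a polynomial with real coefficients -/
lemma real_poly {p : Polynomial (DualNumber ℂ)} (h : ∀ i, Real' (p.coeff i)) :
    p = (p.map re').map (algebraMap ℂ (DualNumber ℂ)) := by
  ext1 i
  rw [Polynomial.coeff_map, Polynomial.coeff_map, re'_apply, algebraMap_eq_inl]
  exact (h i).eq

lemma pl_coeff_eq {R : Type*} [CommRing R] {q : ℕ} (w : Fin q → R) (i : Fin q) :
    (pl w).coeff i = w i := by
  unfold pl
  rw [Polynomial.finsetSum_coeff, Finset.sum_eq_single i]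
  · simp
  · intro j _ hj
    rw [Polynomial.coeff_C_mul_X_pow, if_neg fun h => hj (Fin.ext h).symm]
  · intro h
    exact absurd (Finset.mem_univ i) h

lemma prod_ne {k : ℕ} (j : Fin k) :
    ∏ i ∈ Finset.univ.erase j, (((j : ℕ) : ℂ) - ((i : ℕ) : ℂ)) ≠ 0 := by
  rw [Finset.prod_ne_zero_iff]
  intro i hi h
  have h1 : ((j : ℕ) : ℂ) = ((i : ℕ) : ℂ) := sub_eq_zero.1 h
  have h2 : (j : ℕ) = (i : ℕ) := by exact_mod_cast h1
  exact (Finset.mem_erase.1 hi).1 (Fin.ext h2).symm

lemma deriv_rt {k : ℕ} (ρ : Fin k → ℂ) (j : Fin k) :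
    (rt ρ).derivative.eval (ρ j) = ∏ i ∈ Finset.univ.erase j, (ρ j - ρ i) := by
  have h := eval_ff ρ (fun _ => 1) (0 : Fin 0 → ℂ) j
  rw [one_mul] at h
  rw [← h]
  congr 1
  unfold rt ff
  rw [Polynomial.derivative_prod_finset]
  simp [pl]

/-- the infinitesimal parts of the parameters are zero if those of the coefficients are zero -/
lemma tangent {l : ℕ} (hk : 1 ≤ k) (hl : k ≤ l + 1) (hq : q = l + 1 - k)
    (a0 : ℂ) (at' az : Fin k → ℂ) (aw : Fin q → ℂ) (u : Fin k → ℂ) (hu : ∀ j, u j ≠ 0)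
    (c : DualNumber ℂ) (hc : c = inl 1 + inr a0) (ρ : Fin k → DualNumber ℂ)
    (hρ : ρ = fun j : Fin k => (inl ((j : ℕ) : ℂ) : DualNumber ℂ) + inr (at' j))
    (z : Fin k → DualNumber ℂ) (hz : z = fun j => (inr (az j * u j) : DualNumber ℂ))
    (w : Fin q → DualNumber ℂ) (hw : w = fun i => (inr (aw i) : DualNumber ℂ))
    (h : ∀ i, Real' (co l c ρ z w i)) :
    a0 = 0 ∧ (∀ j, at' j = 0) ∧ (∀ j, az j = 0) ∧ ∀ i, aw i = 0 := by
  obtain ⟨r, hr⟩ : ∃ r : Fin k → ℂ, r = fun j : Fin k => ((j : ℕ) : ℂ) := ⟨_, rfl⟩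
  have hreρ : (fun j => re' (ρ j)) = r := by
    rw [hρ, hr]
    funext j
    simp [re'_apply]
  have hrec : re' c = 1 := by
    rw [hc]
    simp [re'_apply]
  -- the polynomial `g`
  have hg : ∀ i, Real' ((gg c ρ).coeff i) := by
    intro i
    by_cases hi : i < k + 1
    · exact h (Sum.inr ⟨i, hi⟩)
    · rw [Polynomial.coeff_eq_zero_of_natDegree_lt]
      · exact ⟨0, by simp⟩
      · refine lt_of_le_of_lt (Polynomial.natDegree_C_mul_le _ _) ?_
        rw [natDegree_rt]
        omega
  have hg1 := real_poly hg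
  rw [map_gg, hreρ, hrec] at hg1
  have hat : ∀ j, at' j = 0 := by
    intro j
    have h1 := congrArg (fun p => Polynomial.eval (ρ j) p) hg1
    beta_reduce at h1
    have h2 : (gg c ρ).eval (ρ j) = 0 := by
      unfold gg
      rw [Polynomial.eval_mul, eval_rt, mul_zero]
    rw [h2] at h1
    have h3 : ρ j = algebraMap ℂ (DualNumber ℂ) (r j) + inr (at' j) := by
      rw [hρ, hr]
      rfl
    rw [h3, Polynomial.eval_add_of_sq_eq_zero _ _ _ (eps_sq _), Polynomial.derivative_map,
      Polynomial.eval_map_algebraMap, Polynomial.eval_map_algebraMap,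
      Polynomial.aeval_algebraMap_apply, Polynomial.aeval_algebraMap_apply,
      Polynomial.coe_aeval_eq_eval] at h1
    have h4 : (gg 1 r).eval (r j) = 0 := by
      unfold gg
      rw [Polynomial.eval_mul, eval_rt, mul_zero]
    have h5 : (Polynomial.derivative (gg 1 r)).eval (r j) =
        ∏ i ∈ Finset.univ.erase j, (r j - r i) := by
      unfold gg
      rw [map_one, one_mul, deriv_rt]
    rw [h4, map_zero, zero_add, h5, algebraMap_eq_inl, inl_mul_inr] at h1
    have h6 := congrArg snd h1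
    rw [snd_zero, snd_inr, smul_eq_mul] at h6
    rcases mul_eq_zero.1 h6.symm with h7 | h7
    · rw [hr] at h7
      exact absurd h7 (prod_ne j)
    · exact h7
  have ha0 : a0 = 0 := by
    have h1 := hg k
    have h2 : (gg c ρ).coeff k = c := by
      unfold gg
      have h3 : (rt ρ).coeff k = 1 := by
        have := (monic_rt ρ).coeff_natDegree
        rwa [natDegree_rt] at this
      rw [Polynomial.coeff_C_mul, h3, mul_one]
    rw [h2, hc] at h1
    exact h1.inr
  have hρr : ∀ j, ρ j = algebraMap ℂ (DualNumber ℂ) (r j) := by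
    intro j
    rw [hρ, hr, algebraMap_eq_inl]
    beta_reduce
    rw [hat j, inr_zero, add_zero]
  -- the polynomial `f`
  have hf : ff ρ z w = 0 := by
    have hf0 : ∀ i, Real' ((ff ρ z w).coeff i) := by
      intro i
      by_cases hi : i < l + 1
      · exact h (Sum.inl ⟨i, hi⟩)
      · rw [Polynomial.coeff_eq_zero_of_natDegree_lt]
        · exact ⟨0, by simp⟩
        · refine lt_of_le_of_lt (natDegree_ff hk hl hq ρ z w) ?_
          omega
    rw [real_poly hf0, map_ff]
    have e1 : (fun j => re' (z j)) = 0 := by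
      rw [hz]
      funext j
      simp [re'_apply]
    have e2 : (fun i => re' (w i)) = 0 := by
      rw [hw]
      funext j
      simp [re'_apply]
    rw [e1, e2]
    simp [ff, pl]
  have haz : ∀ j, az j = 0 := by
    intro j
    have h1 := eval_ff ρ z w j
    rw [hf, Polynomial.eval_zero] at h1
    have h2 : ∏ i ∈ Finset.univ.erase j, (ρ j - ρ i) =
        inl (∏ i ∈ Finset.univ.erase j, (r j - r i)) := by
      rw [← algebraMap_eq_inl, map_prod]
      exact Finset.prod_congr rfl fun i _ => by rw [hρr, hρr, map_sub]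
    rw [h2, hz] at h1
    have h3 := congrArg snd h1
    simp only [snd_zero, snd_mul, snd_inl, snd_inr, fst_inr, fst_inl] at h3
    simp only [smul_zero, zero_add, MulOpposite.smul_eq_mul_unop, MulOpposite.unop_op] at h3
    have h4 := prod_ne j
    rw [hr] at h3
    rcases mul_eq_zero.1 h3.symm with h5 | h5
    · rcases mul_eq_zero.1 h5 with h6 | h6
      · exact h6
      · exact absurd h6 (hu j)
    · exact absurd h5 h4
  refine ⟨ha0, hat, haz, fun i => ?_⟩
  have h1 : pl w * rt ρ = 0 := by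
    have e1 : z = fun _ => 0 := by
      rw [hz]
      funext j
      rw [haz j, zero_mul, inr_zero]
    rw [← hf, e1]
    simp [ff]
  have h2 := (monic_rt ρ).mul_left_eq_zero_iff.1 h1
  have h3 := pl_coeff_eq w i
  rw [h2, Polynomial.coeff_zero, hw] at h3
  have h4 := congrArg snd h3
  simpa using h4.symm

end dual

/-! ## Power series -/

section series

open TrivSqZeroExt

variable {N : ℕ}

lemma coeff_single_eq (j : Fin N) (f : MvPowerSeries (Fin N) ℂ) :
    MvPowerSeries.coeff (Finsupp.single j 1) f =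
      MvPowerSeries.constantCoeff (MvPowerSeries.pderiv ℂ j f) := by
  rw [← MvPowerSeries.coeff_zero_eq_constantCoeff_apply, MvPowerSeries.coeff_pderiv]
  simp

lemma coeff_single_mul (j : Fin N) (f g : MvPowerSeries (Fin N) ℂ) :
    MvPowerSeries.coeff (Finsupp.single j 1) (f * g) =
      MvPowerSeries.constantCoeff f * MvPowerSeries.coeff (Finsupp.single j 1) g +
        MvPowerSeries.constantCoeff g * MvPowerSeries.coeff (Finsupp.single j 1) f := by
  rw [coeff_single_eq, coeff_single_eq, coeff_single_eq, Derivation.leibniz, map_add,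
    smul_eq_mul, smul_eq_mul, map_mul, map_mul]

/-- the value and the derivative in the direction `v` at the origin -/
noncomputable def evd (v : Fin N → ℂ) : MvPowerSeries (Fin N) ℂ →+* DualNumber ℂ where
  toFun f := inl (MvPowerSeries.constantCoeff f) +
    inr (∑ j, MvPowerSeries.coeff (Finsupp.single j 1) f * v j)
  map_one' := by
    have h : ∀ j, MvPowerSeries.coeff (Finsupp.single j 1) (1 : MvPowerSeries (Fin N) ℂ) = 0 := by
      intro j
      rw [coeff_single_eq, Derivation.map_one_eq_zero, map_zero]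
    rw [map_one, Finset.sum_eq_zero fun j _ => by rw [h, zero_mul]]
    simp
  map_zero' := by
    simp
  map_add' f g := by
    simp only [map_add, add_mul, Finset.sum_add_distrib, inl_add, inr_add]
    abel
  map_mul' f g := by
    ext
    · simp
    · simp only [coeff_single_mul, snd_add, snd_inl, snd_inr, snd_mul, fst_add, fst_inl, fst_inr,
        zero_add, add_zero, smul_eq_mul, MulOpposite.smul_eq_mul_unop, MulOpposite.unop_op,
        Finset.mul_sum, Finset.sum_mul]
      rw [← Finset.sum_add_distrib]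
      refine Finset.sum_congr rfl fun j _ => ?_
      ring

lemma evd_apply (v : Fin N → ℂ) (f : MvPowerSeries (Fin N) ℂ) :
    evd v f = inl (MvPowerSeries.constantCoeff f) +
      inr (∑ j, MvPowerSeries.coeff (Finsupp.single j 1) f * v j) := rfl

lemma evd_X (v : Fin N → ℂ) (i : Fin N) : evd v (MvPowerSeries.X i) = inr (v i) := by
  classical
  rw [evd_apply, MvPowerSeries.constantCoeff_X, Finset.sum_eq_single i]
  · simp
  · intro j _ hj
    rw [MvPowerSeries.coeff_X, if_neg, zero_mul]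
    intro h
    have := Finsupp.single_left_injective (one_ne_zero) h
    exact hj this
  · intro h
    exact absurd (Finset.mem_univ i) h

lemma evd_C (v : Fin N → ℂ) (c : ℂ) : evd v (MvPowerSeries.C c) = inl c := by
  have h : ∀ j, MvPowerSeries.coeff (Finsupp.single j 1)
      (MvPowerSeries.C c : MvPowerSeries (Fin N) ℂ) = 0 := by
    intro j
    rw [coeff_single_eq]
    have : (MvPowerSeries.C c : MvPowerSeries (Fin N) ℂ) = algebraMap ℂ _ c := rfl
    rw [this, Derivation.map_algebraMap, map_zero]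
  rw [evd_apply, Finset.sum_eq_zero fun j _ => by rw [h, zero_mul]]
  simp

lemma real_of_mulVec {φ : Fin N → MvPowerSeries (Fin N) ℂ} {v : Fin N → ℂ}
    (h : (Matrix.of fun i j => MvPowerSeries.coeff (Finsupp.single j 1) (φ i)).mulVec v = 0)
    (i : Fin N) : Real' (evd v (φ i)) := by
  have h1 := congrFun h i
  refine ⟨MvPowerSeries.constantCoeff (φ i), ?_⟩
  rw [evd_apply]
  have h2 : ∑ j, MvPowerSeries.coeff (Finsupp.single j 1) (φ i) * v j = 0 := h1
  rw [h2]
  simp

end series

/-- **Piece CH.** -/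
theorem t_CH : S_CH := by
  classical
  intro hNC k l hkl b hb
  rcases Nat.eq_zero_or_pos k with hk0 | hk
  · subst hk0
    rw [pow_zero]
    exact one_dvd _
  obtain ⟨q, hq⟩ : ∃ q, q = l + 1 - k := ⟨_, rfl⟩
  obtain ⟨N, hN⟩ : ∃ N, N = l + k + 2 := ⟨_, rfl⟩
  have hc1 : Fintype.card (Unit ⊕ (Fin k ⊕ (Fin k ⊕ Fin q))) = N := by
    simp only [Fintype.card_sum, Fintype.card_fin, Fintype.card_unit]
    omega
  have hc2 : Fintype.card (Co l k) = N := by
    simp only [Fintype.card_sum, Fintype.card_fin]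
    omega
  obtain ⟨e'⟩ : Nonempty ((Unit ⊕ (Fin k ⊕ (Fin k ⊕ Fin q))) ≃ Fin N) :=
    ⟨Fintype.equivFinOfCardEq hc1⟩
  obtain ⟨e⟩ : Nonempty (Co l k ≃ Fin N) := ⟨Fintype.equivFinOfCardEq hc2⟩
  obtain ⟨c, hc⟩ : ∃ c : MvPowerSeries (Fin N) ℂ, c = MvPowerSeries.C 1 +
    MvPowerSeries.X (e' (Sum.inl ())) := ⟨_, rfl⟩
  obtain ⟨ρ, hρ⟩ : ∃ ρ : Fin k → MvPowerSeries (Fin N) ℂ, ρ = fun j : Fin k =>
    MvPowerSeries.C ((j : ℕ) : ℂ) + MvPowerSeries.X (e' (Sum.inr (Sum.inl j))) := ⟨_, rfl⟩
  obtain ⟨U, hU⟩ : ∃ U : MvPowerSeries (Fin N) ℂ, U = c ^ l * ∏ j, ((-1) ^ l *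
    ∏ i ∈ Finset.univ.erase j, (ρ j - ρ i)) := ⟨_, rfl⟩
  have hU0 : MvPowerSeries.constantCoeff U ≠ 0 := by
    rw [hU, map_mul, map_pow, map_prod]
    refine mul_ne_zero (pow_ne_zero _ ?_) (Finset.prod_ne_zero_iff.2 fun j _ => ?_)
    · rw [hc, map_add, MvPowerSeries.constantCoeff_X, MvPowerSeries.constantCoeff_C, add_zero]
      exact one_ne_zero
    · rw [map_mul, map_pow, map_neg, map_one, map_prod]
      refine mul_ne_zero (pow_ne_zero _ (neg_ne_zero.2 one_ne_zero)) ?_
      have h1 := prod_ne j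
      have h2 : ∏ i ∈ Finset.univ.erase j, MvPowerSeries.constantCoeff (ρ j - ρ i) =
          ∏ i ∈ Finset.univ.erase j, (((j : ℕ) : ℂ) - ((i : ℕ) : ℂ)) := by
        refine Finset.prod_congr rfl fun i _ => ?_
        rw [hρ]
        simp
      rw [h2]
      exact h1
  obtain ⟨u, hu⟩ : ∃ u : Fin k → MvPowerSeries (Fin N) ℂ, u = fun j : Fin k =>
    if j = ⟨0, hk⟩ then U⁻¹ else 1 := ⟨_, rfl⟩
  have hu0 : ∀ j, MvPowerSeries.constantCoeff (u j) ≠ 0 := by
    intro j
    rw [hu]
    beta_reduce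
    split_ifs
    · rw [MvPowerSeries.constantCoeff_inv]
      exact inv_ne_zero hU0
    · rw [map_one]
      exact one_ne_zero
  have hprodu : ∏ j, u j = U⁻¹ := by
    rw [hu, Finset.prod_ite_eq' Finset.univ (⟨0, hk⟩ : Fin k) (fun _ => U⁻¹)]
    simp
  obtain ⟨z, hz⟩ : ∃ z : Fin k → MvPowerSeries (Fin N) ℂ, z = fun j : Fin k =>
    MvPowerSeries.X (e' (Sum.inr (Sum.inr (Sum.inl j)))) * u j := ⟨_, rfl⟩
  obtain ⟨w, hw⟩ : ∃ w : Fin q → MvPowerSeries (Fin N) ℂ, w = fun i : Fin q =>
    MvPowerSeries.X (e' (Sum.inr (Sum.inr (Sum.inr i)))) := ⟨_, rfl⟩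
  have hrs := rs_co hk hkl hq c ρ z w
  rw [← hU, hz, Finset.prod_mul_distrib, hprodu, mul_comm (∏ j, _), ← mul_assoc,
    MvPowerSeries.mul_inv_cancel _ hU0, one_mul, ← hz] at hrs
  obtain ⟨S, hS⟩ : ∃ S : Finset (Fin N), S = (Finset.univ : Finset (Fin k)).image
    (fun j => e' (Sum.inr (Sum.inr (Sum.inl j)))) := ⟨_, rfl⟩
  have hinj : Function.Injective fun j : Fin k => e' (Sum.inr (Sum.inr (Sum.inl j))) := by
    intro i j hij
    have := e'.injective hij
    simpa using this
  have hScard : S.card = k := by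
    rw [hS, Finset.card_image_of_injective _ hinj]
    simp
  obtain ⟨φ, hφ⟩ : ∃ φ : Fin N → MvPowerSeries (Fin N) ℂ, φ = fun i =>
    co l c ρ z w (e.symm i) := ⟨_, rfl⟩
  have hfg : (MvPolynomial.aeval φ (MvPolynomial.rename e (RSC l k)) : MvPowerSeries (Fin N) ℂ) =
      ((∏ i ∈ S, (MvPolynomial.X i : MvPolynomial (Fin N) ℂ) : MvPolynomial (Fin N) ℂ) :
        MvPowerSeries (Fin N) ℂ) := by
    rw [MvPolynomial.aeval_rename]
    have h1 : φ ∘ e = co l c ρ z w := by
      rw [hφ]
      funext i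
      simp
    rw [h1, aeval_RSC, hrs, hS, Finset.prod_image fun i _ j _ h => hinj h]
    have h2 : ((∏ j, (MvPolynomial.X (e' (Sum.inr (Sum.inr (Sum.inl j)))) :
        MvPolynomial (Fin N) ℂ) : MvPolynomial (Fin N) ℂ) : MvPowerSeries (Fin N) ℂ) =
        ∏ j, ((MvPolynomial.X (e' (Sum.inr (Sum.inr (Sum.inl j)))) : MvPolynomial (Fin N) ℂ) :
          MvPowerSeries (Fin N) ℂ) :=
      map_prod (MvPolynomial.coeToMvPowerSeries.ringHom (σ := Fin N) (R := ℂ)) _ _
    rw [h2]
    exact Finset.prod_congr rfl fun j _ => (MvPolynomial.coe_X _).symm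
  have hcoord : IsCoord φ := by
    intro hdet
    obtain ⟨v, hv0, hv⟩ := Matrix.exists_mulVec_eq_zero_iff.2 hdet
    have hR : ∀ i : Co l k, Real' (co l (evd v c) (fun j => evd v (ρ j)) (fun j => evd v (z j))
        (fun i => evd v (w i)) i) := by
      intro i
      rw [← map_co]
      have := real_of_mulVec hv (e i)
      rw [hφ] at this
      simpa using this
    obtain ⟨h1, h2, h3, h4⟩ := tangent hk hkl hq (v (e' (Sum.inl ())))
      (fun j => v (e' (Sum.inr (Sum.inl j)))) (fun j => v (e' (Sum.inr (Sum.inr (Sum.inl j)))))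
      (fun i => v (e' (Sum.inr (Sum.inr (Sum.inr i)))))
      (fun j => MvPowerSeries.constantCoeff (u j)) hu0 (evd v c) (by
        rw [hc, map_add, evd_C, evd_X]) (fun j => evd v (ρ j)) (by
        funext j
        rw [hρ, map_add, evd_C, evd_X]) (fun j => evd v (z j)) (by
        funext j
        rw [hz, map_mul, evd_X, evd_apply]
        ext
        · simp
        · simp) (fun i => evd v (w i)) (by
        funext i
        rw [hw, evd_X]) hR
    apply hv0
    funext i
    obtain ⟨x, rfl⟩ := e'.surjective i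
    rcases x with x | x | x | x
    · exact h1
    · exact h2 x
    · exact h3 x
    · exact h4 x
  have hbf : IsBFunction (MvPolynomial.rename e (RSC l k)) b := by
    refine Pool.Agent.Y229.bfunction_equiv e.symm _ b ?_
    rw [MvPolynomial.rename_rename]
    simpa using hb
  have := hNC N S b (formal_local hbf hcoord hfg)
  rwa [hScard] at this

end Pool.Agent.K1H74.RS
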