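import Pool.Agent.K1H20.RS.Stm

/-! # Specialisation of a homogeneous functional equation (piece SPEC) -/

set_option autoImplicit false
set_option linter.dupNamespace false
set_option linter.unusedSectionVars false
set_option linter.unusedDecidableInType false

namespace Pool.Agent.K1H74.RS

open MvPolynomial Pool.Agent.H628R4.TP Pool.Agent.K1H20.RS

variable {α κ : Type} [Fintype α] [Fintype κ] [DecidableEq α] [DecidableEq κ]

/-- the polynomials in all the variables -/
abbrev PP (α κ : Type) := MvPolynomial (α ⊕ κ) ℂ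

/-- the weight -/
abbrev wt (α κ : Type) : α ⊕ κ → ℕ := Sum.elim (fun _ => 0) (fun _ => 1)

/-- the partial derivative as a linear map -/
noncomputable def pd {σ : Type} (u : σ) : MvPolynomial σ ℂ →ₗ[ℂ] MvPolynomial σ ℂ :=
  ((pderiv u : Derivation ℂ (MvPolynomial σ ℂ) (MvPolynomial σ ℂ)) :
    MvPolynomial σ ℂ →ₗ[ℂ] MvPolynomial σ ℂ)

lemma pd_apply {σ : Type} (u : σ) (f : MvPolynomial σ ℂ) : pd u f = pderiv u f := rfl

/-- multiplication by a variable -/
noncomputable def mx {σ : Type} (u : σ) : MvPolynomial σ ℂ →ₗ[ℂ] MvPolynomial σ ℂ :=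
  LinearMap.mulLeft ℂ (X u : MvPolynomial σ ℂ)

lemma mx_apply {σ : Type} (u : σ) (f : MvPolynomial σ ℂ) : mx u f = X u * f := rfl

lemma pd_comm {σ : Type} (u v : σ) (f : MvPolynomial σ ℂ) :
    pderiv u (pderiv v f) = pderiv v (pderiv u f) := by
  classical
  have h : ⁅(pderiv u : Derivation ℂ (MvPolynomial σ ℂ) (MvPolynomial σ ℂ)),
      (pderiv v : Derivation ℂ (MvPolynomial σ ℂ) (MvPolynomial σ ℂ))⁆ = 0 := by
    refine MvPolynomial.derivation_ext fun w => ?_
    rw [Derivation.commutator_apply, pderiv_X, pderiv_X, Derivation.zero_apply]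
    have h1 : ∀ (a b : σ), (pderiv a) ((Pi.single b (1 : MvPolynomial σ ℂ) : σ → _) w) = 0 := by
      intro a b
      by_cases h : w = b
      · subst h
        simp
      · rw [Pi.single_eq_of_ne h, map_zero]
    rw [h1, h1, sub_self]
  have h2 := congrArg (fun D : Derivation ℂ (MvPolynomial σ ℂ) (MvPolynomial σ ℂ) => D f) h
  simp only [Derivation.commutator_apply, Derivation.zero_apply] at h2
  exact sub_eq_zero.1 h2

lemma mx_mem {σ : Type} (u : σ) : mx u ∈ weylS σ := Algebra.subset_adjoin (Or.inl ⟨u, rfl⟩)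

lemma pd_mem {σ : Type} (u : σ) : pd u ∈ weylS σ := Algebra.subset_adjoin (Or.inr ⟨u, rfl⟩)

/-- induction over the Weyl algebra -/
lemma weyl_induction {σ : Type} {p : Module.End ℂ (MvPolynomial σ ℂ) → Prop}
    (h1 : ∀ u, p (mx u)) (h2 : ∀ u, p (pd u)) (h3 : ∀ c : ℂ, p (algebraMap ℂ _ c))
    (h4 : ∀ P Q, p P → p Q → p (P + Q)) (h5 : ∀ P Q, p P → p Q → p (P * Q))
    {P : Module.End ℂ (MvPolynomial σ ℂ)} (hP : P ∈ weylS σ) : p P := by
  unfold weylS at hP
  induction hP using Algebra.adjoin_induction with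
  | mem P hP =>
    rcases hP with ⟨i, rfl⟩ | ⟨i, rfl⟩
    · exact h1 i
    · exact h2 i
  | algebraMap c => exact h3 c
  | add P Q _ _ hP hQ => exact h4 P Q hP hQ
  | mul P Q _ _ hP hQ => exact h5 P Q hP hQ

/-- the subalgebra without derivatives in the direction of `κ` -/
noncomputable def AA (α κ : Type) : Subalgebra ℂ (Module.End ℂ (PP α κ)) :=
  Algebra.adjoin ℂ (Set.range (fun u => (mx u : Module.End ℂ (PP α κ))) ∪
    Set.range (fun i : α => (pd (Sum.inl i) : Module.End ℂ (PP α κ))))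

lemma AA_le : AA α κ ≤ weylS (α ⊕ κ) := by
  refine Algebra.adjoin_le ?_
  rintro _ (⟨u, rfl⟩ | ⟨i, rfl⟩)
  · exact mx_mem u
  · exact pd_mem _

lemma mx_memA (u : α ⊕ κ) : mx u ∈ AA α κ := Algebra.subset_adjoin (Or.inl ⟨u, rfl⟩)

lemma pd_memA (i : α) : pd (Sum.inl i) ∈ AA α κ := Algebra.subset_adjoin (Or.inr ⟨i, rfl⟩)

/-- all monomials have weight at least `n` -/
def Low (n : ℕ) (f : PP α κ) : Prop := ∀ m, Finsupp.weight (wt α κ) m < n → coeff m f = 0

lemma Low_of_hom {n : ℕ} {f : PP α κ} (hf : IsWeightedHomogeneous (wt α κ) f n) : Low n f := by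
  intro m hm
  exact hf.coeff_eq_zero m (ne_of_lt hm)

lemma Low_AA {a : Module.End ℂ (PP α κ)} (ha : a ∈ AA α κ) :
    ∀ (n : ℕ) (f : PP α κ), Low n f → Low n (a f) := by
  unfold AA at ha
  induction ha using Algebra.adjoin_induction with
  | mem P hP =>
    rcases hP with ⟨u, rfl⟩ | ⟨i, rfl⟩
    · intro n f hf m hm
      show coeff m (X u * f) = 0
      rw [coeff_X_mul']
      split_ifs with h
      · refine hf _ ?_
        refine lt_of_le_of_lt ?_ hm
        have h1 : m = (m - Finsupp.single u 1) + Finsupp.single u 1 := by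
          refine (tsub_add_cancel_of_le ?_).symm
          rw [Finsupp.single_le_iff]
          rw [Finsupp.mem_support_iff] at h
          omega
        conv_rhs => rw [h1, map_add]
        exact Nat.le_add_right _ _
      · rfl
    · intro n f hf m hm
      show coeff m (pderiv (Sum.inl i) f) = 0
      rw [coeff_pderiv]
      rw [hf, zero_mul]
      rw [map_add, Finsupp.weight_single]
      simpa [wt] using hm
  | algebraMap c =>
    intro n f hf m hm
    rw [Algebra.algebraMap_eq_smul_one, LinearMap.smul_apply, coeff_smul, Module.End.one_apply,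
      hf m hm, smul_zero]
  | add P Q _ _ hP hQ =>
    intro n f hf m hm
    rw [LinearMap.add_apply, coeff_add, hP n f hf m hm, hQ n f hf m hm, add_zero]
  | mul P Q _ _ hP hQ =>
    intro n f hf
    rw [Module.End.mul_apply]
    exact hP n _ (hQ n f hf)

/-- commutators with `∂_k` -/
lemma comm_AA (k : κ) {a : Module.End ℂ (PP α κ)} (ha : a ∈ AA α κ) :
    pd (Sum.inr k) * a - a * pd (Sum.inr k) ∈ AA α κ := by
  unfold AA at ha
  induction ha using Algebra.adjoin_induction with
  | mem P hP =>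
    rcases hP with ⟨u, rfl⟩ | ⟨i, rfl⟩
    · have h1 : (pd (Sum.inr k) * mx u - mx u * pd (Sum.inr k) : Module.End ℂ (PP α κ)) =
          algebraMap ℂ _ (if u = Sum.inr k then 1 else 0) := by
        refine LinearMap.ext fun f => ?_
        rw [LinearMap.sub_apply, Module.End.mul_apply, Module.End.mul_apply, pd_apply, mx_apply,
          mx_apply, pd_apply, Derivation.leibniz, pderiv_X, Algebra.algebraMap_eq_smul_one,
          LinearMap.smul_apply, Module.End.one_apply, smul_eq_mul, smul_eq_mul]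
        by_cases h : u = Sum.inr k
        · subst h
          simp
        · rw [if_neg h, Pi.single_eq_of_ne h]
          simp
      show (pd (Sum.inr k) * mx u - mx u * pd (Sum.inr k) : Module.End ℂ (PP α κ)) ∈ _
      rw [h1]
      exact Subalgebra.algebraMap_mem _ _
    · have h1 : (pd (Sum.inr k) * pd (Sum.inl i) - pd (Sum.inl i) * pd (Sum.inr k) :
          Module.End ℂ (PP α κ)) = 0 := by
        refine LinearMap.ext fun f => ?_
        rw [LinearMap.sub_apply, Module.End.mul_apply, Module.End.mul_apply, pd_apply, pd_apply,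
          pd_apply, pd_apply, pd_comm, sub_self]
        rfl
      show (pd (Sum.inr k) * pd (Sum.inl i) - pd (Sum.inl i) * pd (Sum.inr k) :
          Module.End ℂ (PP α κ)) ∈ _
      rw [h1]
      exact Subalgebra.zero_mem _
  | algebraMap c =>
    rw [← Algebra.commutes, sub_self]
    exact Subalgebra.zero_mem _
  | add P Q _ _ hP hQ =>
    have := Subalgebra.add_mem _ hP hQ
    convert this using 1
    rw [mul_add, add_mul]
    abel
  | mul P Q hP0 hQ0 hP hQ =>
    have := Subalgebra.add_mem _ (Subalgebra.mul_mem _ hP hQ0) (Subalgebra.mul_mem _ hP0 hQ)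
    convert this using 1
    simp only [sub_mul, mul_sub, mul_assoc]
    abel

/-- sums of multiples of the `∂_k` and an operator without `∂_k` -/
def RA (P : Module.End ℂ (PP α κ)) : Prop :=
  ∃ (Q : κ → Module.End ℂ (PP α κ)) (a : Module.End ℂ (PP α κ)),
    (∀ k, Q k ∈ weylS (α ⊕ κ)) ∧ a ∈ AA α κ ∧ P = ∑ k, pd (Sum.inr k) * Q k + a

lemma RA.add {P P' : Module.End ℂ (PP α κ)} (h : RA P) (h' : RA P') : RA (P + P') := by
  obtain ⟨Q, a, h1, h2, rfl⟩ := h
  obtain ⟨Q', a', h1', h2', rfl⟩ := h'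
  refine ⟨fun k => Q k + Q' k, a + a', fun k => Subalgebra.add_mem _ (h1 k) (h1' k),
    Subalgebra.add_mem _ h2 h2', ?_⟩
  simp only [mul_add, Finset.sum_add_distrib]
  abel

lemma RA_mul {g : Module.End ℂ (PP α κ)} (hg : g ∈ weylS (α ⊕ κ)) :
    ∀ P : Module.End ℂ (PP α κ), RA P → RA (P * g) := by
  have key : ∀ g : Module.End ℂ (PP α κ), g ∈ AA α κ → ∀ P, RA P → RA (P * g) := by
    rintro g hg P ⟨Q, a, h1, h2, rfl⟩
    refine ⟨fun k => Q k * g, a * g, fun k => Subalgebra.mul_mem _ (h1 k) (AA_le hg),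
      Subalgebra.mul_mem _ h2 hg, ?_⟩
    rw [add_mul, Finset.sum_mul]
    simp only [mul_assoc]
  refine weyl_induction (p := fun g => ∀ P : Module.End ℂ (PP α κ), RA P → RA (P * g)) ?_ ?_ ?_
    ?_ ?_ hg
  · exact fun u => key _ (mx_memA u)
  · intro u
    rcases u with i | k0
    · exact key _ (pd_memA i)
    · rintro P ⟨Q, a, h1, h2, rfl⟩
      refine ⟨fun k => Q k * pd (Sum.inr k0) + (if k = k0 then a else 0),
        -(pd (Sum.inr k0) * a - a * pd (Sum.inr k0)), fun k => ?_, ?_, ?_⟩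
      · refine Subalgebra.add_mem _ (Subalgebra.mul_mem _ (h1 k) (pd_mem _)) ?_
        split_ifs
        · exact AA_le h2
        · exact Subalgebra.zero_mem _
      · exact Subalgebra.neg_mem _ (comm_AA k0 h2)
      · have h3 : ∑ k, pd (Sum.inr k) * (if k = k0 then a else 0) =
            (pd (Sum.inr k0) * a : Module.End ℂ (PP α κ)) := by
          rw [Finset.sum_eq_single k0]
          · rw [if_pos rfl]
          · intro k _ hk
            rw [if_neg hk, mul_zero]
          · intro h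
            exact absurd (Finset.mem_univ _) h
        simp only [mul_add, Finset.sum_add_distrib, h3, add_mul, Finset.sum_mul, ← mul_assoc]
        abel
  · intro c
    exact key _ (Subalgebra.algebraMap_mem _ _)
  · intro P Q hP hQ R hR
    rw [mul_add]
    exact (hP R hR).add (hQ R hR)
  · intro P Q hP hQ R hR
    rw [← mul_assoc]
    exact hQ _ (hP R hR)

lemma RA_all {P : Module.End ℂ (PP α κ)} (hP : P ∈ weylS (α ⊕ κ)) : RA P := by
  have h1 : RA (1 : Module.End ℂ (PP α κ)) :=
    ⟨fun _ => 0, 1, fun _ => Subalgebra.zero_mem _, Subalgebra.one_mem _, by simp⟩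
  have := RA_mul hP 1 h1
  rwa [one_mul] at this

/-! ## The shape of the results -/

/-- `T` applied to the coefficients -/
noncomputable def cm {σ τ : Type} (T : MvPolynomial σ ℂ →ₗ[ℂ] MvPolynomial τ ℂ)
    (h : Polynomial (MvPolynomial σ ℂ)) : Polynomial (MvPolynomial τ ℂ) :=
  ∑ i ∈ h.support, Polynomial.C (T (h.coeff i)) * Polynomial.X ^ i

lemma eval_cm {σ τ : Type} (T : MvPolynomial σ ℂ →ₗ[ℂ] MvPolynomial τ ℂ)
    (h : Polynomial (MvPolynomial σ ℂ)) (s : ℂ) :
    (cm T h).eval (C s) = T (h.eval (C s)) := by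
  unfold cm
  rw [Polynomial.eval_finsetSum, Polynomial.eval_eq_sum, Polynomial.sum, map_sum]
  refine Finset.sum_congr rfl fun i _ => ?_
  rw [Polynomial.eval_mul, Polynomial.eval_C, Polynomial.eval_pow, Polynomial.eval_X,
    ← C_pow, ← C_pow, mul_comm (T _), mul_comm (h.coeff i), ← MvPolynomial.smul_eq_C_mul,
    ← MvPolynomial.smul_eq_C_mul, map_smul]

/-- functions of `s` which are polynomials in `s` with coefficients in `ℂ[x]` -/
def PF {σ : Type} (f : ℂ → MvPolynomial σ ℂ) : Prop :=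
  ∃ h : Polynomial (MvPolynomial σ ℂ), ∀ s, f s = h.eval (C s)

lemma PF.const {σ : Type} (g : MvPolynomial σ ℂ) : PF fun _ => g :=
  ⟨Polynomial.C g, fun s => by simp⟩

lemma PF.add {σ : Type} {f g : ℂ → MvPolynomial σ ℂ} (hf : PF f) (hg : PF g) :
    PF fun s => f s + g s := by
  obtain ⟨h, hh⟩ := hf
  obtain ⟨k, hk⟩ := hg
  exact ⟨h + k, fun s => by beta_reduce; rw [Polynomial.eval_add, hh, hk]⟩

lemma PF.mul {σ : Type} {f g : ℂ → MvPolynomial σ ℂ} (hf : PF f) (hg : PF g) :
    PF fun s => f s * g s := by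
  obtain ⟨h, hh⟩ := hf
  obtain ⟨k, hk⟩ := hg
  exact ⟨h * k, fun s => by beta_reduce; rw [Polynomial.eval_mul, hh, hk]⟩

lemma PF.lin {σ τ : Type} (T : MvPolynomial σ ℂ →ₗ[ℂ] MvPolynomial τ ℂ)
    {f : ℂ → MvPolynomial σ ℂ} (hf : PF f) : PF fun s => T (f s) := by
  obtain ⟨h, hh⟩ := hf
  exact ⟨cm T h, fun s => by beta_reduce; rw [eval_cm, hh]⟩

lemma PF.poly {σ : Type} (b : Polynomial ℂ) : PF fun s => (C (b.eval s) : MvPolynomial σ ℂ) :=
  ⟨b.map C, fun s => by
    rw [Polynomial.eval_map, Polynomial.eval₂_at_apply]⟩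

lemma PF.sum {σ ι : Type} (t : Finset ι) {f : ι → ℂ → MvPolynomial σ ℂ} (hf : ∀ i ∈ t, PF (f i)) :
    PF fun s => ∑ i ∈ t, f i s := by
  classical
  induction t using Finset.induction_on with
  | empty => exact ⟨0, fun s => by simp⟩
  | insert a t ha ih =>
    have h1 := (hf a (Finset.mem_insert_self a t)).add
      (ih fun i hi => hf i (Finset.mem_insert_of_mem hi))
    obtain ⟨h, hh⟩ := h1
    exact ⟨h, fun s => by beta_reduce; rw [Finset.sum_insert ha]; exact hh s⟩

lemma PF.ext {σ : Type} {f g : ℂ → MvPolynomial σ ℂ} (hf : PF f) (hg : PF g)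
    (h : ∀ n : ℕ, f n = g n) (s : ℂ) : f s = g s := by
  obtain ⟨p, hp⟩ := hf
  obtain ⟨q, hq⟩ := hg
  have h1 : p = q := by
    refine Polynomial.eq_of_infinite_eval_eq p q ?_
    refine Set.Infinite.mono (s := Set.range fun n : ℕ => (C (n : ℂ) : MvPolynomial σ ℂ)) ?_ ?_
    · rintro _ ⟨n, rfl⟩
      show p.eval _ = q.eval _
      rw [← hp, ← hq]
      exact h n
    · refine Set.infinite_range_of_injective fun a b hab => ?_
      have h2 := C_injective σ ℂ hab
      exact_mod_cast h2
  rw [hp, hq, h1]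

/-- `G(s) F^M = F^(s+1) h(s)` for a polynomial `h` in `s` -/
def Sh {σ : Type} (F : MvPolynomial σ ℂ) (G : ℕ → MvPolynomial σ ℂ) : Prop :=
  ∃ (M : ℕ) (h : ℂ → MvPolynomial σ ℂ), PF h ∧ ∀ s : ℕ, G s * F ^ M = F ^ (s + 1) * h s

lemma Sh.add {σ : Type} {F : MvPolynomial σ ℂ} {G G' : ℕ → MvPolynomial σ ℂ} (h : Sh F G)
    (h' : Sh F G') : Sh F fun s => G s + G' s := by
  obtain ⟨M, h, h1, h2⟩ := h
  obtain ⟨M', h', h1', h2'⟩ := h'
  refine ⟨M + M', fun s => h s * F ^ M' + h' s * F ^ M,
    (h1.mul (PF.const _)).add (h1'.mul (PF.const _)), fun s => ?_⟩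
  have e : (G s + G' s) * F ^ (M + M') = (G s * F ^ M) * F ^ M' + (G' s * F ^ M') * F ^ M := by
    ring
  rw [e, h2, h2']
  ring

lemma Sh.weyl {σ : Type} {F : MvPolynomial σ ℂ} {Q : Module.End ℂ (MvPolynomial σ ℂ)}
    (hQ : Q ∈ weylS σ) : ∀ G : ℕ → MvPolynomial σ ℂ, Sh F G → Sh F fun s => Q (G s) := by
  refine weyl_induction (p := fun Q => ∀ G : ℕ → MvPolynomial σ ℂ, Sh F G →
    Sh F fun s => Q (G s)) ?_ ?_ ?_ ?_ ?_ hQ
  · rintro u G ⟨M, h, h1, h2⟩
    refine ⟨M, fun s => X u * h s, (PF.const _).mul h1, fun s => ?_⟩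
    beta_reduce
    rw [mx_apply, mul_assoc, h2]
    ring
  · rintro u G ⟨M, h, h1, h2⟩
    refine ⟨M + 1, fun s => C (s + 1) * (pd u F * h s) + (F * pd u (h s) +
      C (-(M : ℂ)) * (pd u F * h s)), ?_, fun s => ?_⟩
    · have e1 := PF.poly (σ := σ) (Polynomial.X + Polynomial.C 1)
      simp only [Polynomial.eval_add, Polynomial.eval_X, Polynomial.eval_C] at e1
      exact (e1.mul ((PF.const _).mul h1)).add (((PF.const _).mul (h1.lin (pd u))).add
        ((PF.const _).mul ((PF.const _).mul h1)))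
    · have h3 := congrArg (fun f => pderiv u f) (h2 s)
      simp only [Derivation.leibniz, Derivation.leibniz_pow, smul_eq_mul, nsmul_eq_mul,
        add_tsub_cancel_right] at h3
      beta_reduce
      rw [pd_apply, pd_apply, pd_apply]
      have h4 : pderiv u (G s) * F ^ (M + 1) =
          F * (G s * ((M : MvPolynomial σ ℂ) * (F ^ (M - 1) * pderiv u F)) +
            F ^ M * pderiv u (G s)) - (G s) * ((M : MvPolynomial σ ℂ) * (F * F ^ (M - 1))) *
              pderiv u F := by
        ring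
      have h5 : (M : MvPolynomial σ ℂ) * (F * F ^ (M - 1)) = M * F ^ M := by
        rcases Nat.eq_zero_or_pos M with h | h
        · subst h
          simp
        · rw [← pow_succ', Nat.sub_add_cancel h]
      rw [h4, h3, h5]
      have h6 : G s * ((M : MvPolynomial σ ℂ) * F ^ M) * pderiv u F =
          (M : MvPolynomial σ ℂ) * (G s * F ^ M) * pderiv u F := by ring
      rw [h6, h2, C_neg, C_add, C_1]
      push_cast
      have h7 : (C (s : ℂ) : MvPolynomial σ ℂ) = (s : MvPolynomial σ ℂ) := map_natCast C s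
      have h8 : (C (M : ℂ) : MvPolynomial σ ℂ) = (M : MvPolynomial σ ℂ) := map_natCast C M
      rw [h7, h8]
      ring
  · rintro c G ⟨M, h, h1, h2⟩
    refine ⟨M, fun s => C c * h s, (PF.const _).mul h1, fun s => ?_⟩
    beta_reduce
    rw [Algebra.algebraMap_eq_smul_one, LinearMap.smul_apply, Module.End.one_apply,
      MvPolynomial.smul_eq_C_mul, mul_assoc, h2]
    ring
  · intro P Q hP hQ G hG
    exact (hP G hG).add (hQ G hG)
  · intro P Q hP hQ G hG
    exact hP _ (hQ G hG)

lemma Sh.smul {σ : Type} {F : MvPolynomial σ ℂ} {G : ℕ → MvPolynomial σ ℂ} (hG : Sh F G) (m : ℕ) :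
    Sh F fun s => ((s : ℂ) ^ m) • G s := by
  obtain ⟨M, h, h1, h2⟩ := hG
  refine ⟨M, fun s => C (s ^ m) * h s, ?_, fun s => ?_⟩
  · have e1 := PF.poly (σ := σ) (Polynomial.X ^ m)
    simp only [Polynomial.eval_pow, Polynomial.eval_X] at e1
    exact e1.mul h1
  · beta_reduce
    rw [MvPolynomial.smul_eq_C_mul, mul_assoc, h2]
    ring

lemma Sh.sum {σ ι : Type} {F : MvPolynomial σ ℂ} (t : Finset ι) {G : ι → ℕ → MvPolynomial σ ℂ}
    (hG : ∀ i ∈ t, Sh F (G i)) : Sh F fun s => ∑ i ∈ t, G i s := by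
  classical
  induction t using Finset.induction_on with
  | empty => exact ⟨0, fun _ => 0, PF.const 0, fun s => by simp⟩
  | insert a t ha ih =>
    have h1 := (hG a (Finset.mem_insert_self a t)).add
      (ih fun i hi => hG i (Finset.mem_insert_of_mem hi))
    obtain ⟨M, h, h2, h3⟩ := h1
    exact ⟨M, h, h2, fun s => by beta_reduce; rw [Finset.sum_insert ha]; exact h3 s⟩

/-- the exponent may be increased -/
lemma Sh.common {σ ι : Type} [Fintype ι] {F : MvPolynomial σ ℂ} {G : ι → ℕ → MvPolynomial σ ℂ}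
    (hG : ∀ i, Sh F (G i)) : ∃ (N : ℕ) (h : ι → ℂ → MvPolynomial σ ℂ), (∀ i, PF (h i)) ∧
      ∀ i, ∀ s : ℕ, G i s * F ^ (N + 1) = F ^ (s + 1) * h i s := by
  classical
  choose M h h1 h2 using hG
  refine ⟨∑ i, M i, fun i s => h i s * F ^ (∑ i, M i - M i + 1), fun i => (h1 i).mul (PF.const _),
    fun i s => ?_⟩
  have h3 : M i ≤ ∑ i, M i := Finset.single_le_sum (fun _ _ => Nat.zero_le _) (Finset.mem_univ i)
  have h4 : ∑ i, M i + 1 = M i + (∑ i, M i - M i + 1) := by omega
  rw [h4, pow_add, ← mul_assoc, h2]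
  ring

/-! ## Components -/

lemma whc_pd (n : ℕ) (k : κ) (g : PP α κ) :
    weightedHomogeneousComponent (wt α κ) n (pderiv (Sum.inr k) g) =
      pderiv (Sum.inr k) (weightedHomogeneousComponent (wt α κ) (n + 1) g) := by
  ext m
  rw [coeff_weightedHomogeneousComponent, coeff_pderiv, coeff_pderiv,
    coeff_weightedHomogeneousComponent]
  have h1 : Finsupp.weight (wt α κ) (m + Finsupp.single (Sum.inr k) 1) =
      Finsupp.weight (wt α κ) m + 1 := by
    rw [map_add, Finsupp.weight_single]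
    simp [wt]
  rw [h1]
  by_cases h : Finsupp.weight (wt α κ) m = n
  · rw [if_pos h, if_pos (by rw [h])]
  · rw [if_neg h, if_neg (by omega), zero_mul]

lemma whc_mul {n D : ℕ} (g : PP α κ) {f : PP α κ} (hf : IsWeightedHomogeneous (wt α κ) f D) :
    weightedHomogeneousComponent (wt α κ) (n + D) (g * f) =
      weightedHomogeneousComponent (wt α κ) n g * f := by
  classical
  have h1 := sum_weightedHomogeneousComponent (wt α κ) g
  conv_lhs => rw [← h1]
  have hfin := weightedHomogeneousComponent_finsupp (w := wt α κ) g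
  rw [finsum_eq_sum _ hfin, Finset.sum_mul, map_sum]
  have h2 : ∀ j, weightedHomogeneousComponent (wt α κ) (n + D)
      (weightedHomogeneousComponent (wt α κ) j g * f) =
      if j = n then weightedHomogeneousComponent (wt α κ) j g * f else 0 := by
    intro j
    have h3 := (weightedHomogeneousComponent_isWeightedHomogeneous (w := wt α κ) j g).mul hf
    split_ifs with h
    · subst h
      exact h3.weightedHomogeneousComponent_same
    · exact h3.weightedHomogeneousComponent_ne _ (by omega)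
  rw [Finset.sum_congr rfl fun j _ => h2 j, Finset.sum_ite_eq']
  split_ifs with h
  · rfl
  · have h' : weightedHomogeneousComponent (wt α κ) n g = 0 := by
      by_contra h0
      exact h ((Set.Finite.mem_toFinset _).2 h0)
    rw [h', zero_mul]

lemma whc_RA {P : Module.End ℂ (PP α κ)} {Q : κ → Module.End ℂ (PP α κ)}
    {a : Module.End ℂ (PP α κ)} (ha : a ∈ AA α κ) (hP : P = ∑ k, pd (Sum.inr k) * Q k + a)
    {n j : ℕ} (hj : j < n) {f : PP α κ} (hf : IsWeightedHomogeneous (wt α κ) f n) :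
    weightedHomogeneousComponent (wt α κ) j (P f) =
      ∑ k, pderiv (Sum.inr k) (weightedHomogeneousComponent (wt α κ) (j + 1) (Q k f)) := by
  have h1 : weightedHomogeneousComponent (wt α κ) j (a f) = 0 := by
    ext m
    rw [coeff_weightedHomogeneousComponent, coeff_zero]
    split_ifs with h
    · exact Low_AA ha n f (Low_of_hom hf) m (by omega)
    · rfl
  rw [hP, LinearMap.add_apply, map_add, h1, add_zero, LinearMap.sum_apply, map_sum]
  refine Finset.sum_congr rfl fun k _ => ?_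
  rw [Module.End.mul_apply, pd_apply, whc_pd]

/-! ## Specialisation -/

lemma sp_pderiv (a : α → ℂ) (k : κ) (g : PP α κ) :
    sp a (pderiv (Sum.inr k) g) = pderiv k (sp a g) := by
  induction g using MvPolynomial.induction_on with
  | C c =>
    rw [pderiv_C, map_zero, ← algebraMap_eq, AlgHom.commutes, Derivation.map_algebraMap]
  | add p q hp hq => rw [map_add, map_add, map_add, map_add, hp, hq]
  | mul_X p u hp =>
    rw [Derivation.leibniz, map_add, smul_eq_mul, smul_eq_mul, map_mul, map_mul, map_mul,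
      Derivation.leibniz, smul_eq_mul, smul_eq_mul, hp, pderiv_X]
    congr 2
    rcases u with i | k'
    · rw [Pi.single_eq_of_ne (by simp), map_zero]
      show 0 = pderiv k (sp a (X (Sum.inl i)))
      unfold sp
      rw [aeval_X]
      show 0 = pderiv k (C (a i))
      rw [pderiv_C]
    · unfold sp
      rw [aeval_X]
      show _ = pderiv k (X k')
      rw [pderiv_X]
      by_cases h : k' = k
      · subst h
        simp
      · rw [Pi.single_eq_of_ne h, Pi.single_eq_of_ne (by simpa using h), map_zero]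

lemma sp_hom (a : α → ℂ) {n : ℕ} {g : PP α κ} (hg : IsWeightedHomogeneous (wt α κ) g n) :
    (sp a g).IsHomogeneous n := by
  rw [g.as_sum, map_sum]
  refine MvPolynomial.IsHomogeneous.sum _ _ _ fun m hm => ?_
  unfold sp
  rw [aeval_monomial]
  have h1 : Finsupp.weight (wt α κ) m = n := hg (mem_support_iff.1 hm)
  have h2 : (m.prod fun u e => (Sum.elim (fun i => C (a i)) X u : MvPolynomial κ ℂ) ^ e) =
      ∏ u, (Sum.elim (fun i => C (a i)) X u : MvPolynomial κ ℂ) ^ m u :=
    Finsupp.prod_fintype _ _ fun u => pow_zero _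
  have h3 : Finsupp.weight (wt α κ) m = ∑ u, wt α κ u * m u := by
    rw [Finsupp.weight_apply, Finsupp.sum_fintype]
    · exact Finset.sum_congr rfl fun u _ => by rw [smul_eq_mul, mul_comm]
    · intro u
      rw [zero_smul]
  rw [h2, ← h1, h3, ← zero_add (∑ u, wt α κ u * m u)]
  refine (isHomogeneous_C κ _).mul ?_
  refine MvPolynomial.IsHomogeneous.prod _ _ _ fun u _ => ?_
  rcases u with i | k
  · have := (isHomogeneous_C κ (a i)).pow (m (Sum.inl i))
    simpa [wt] using this
  · exact (isHomogeneous_X ℂ k).pow (m (Sum.inr k))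

/-- **Piece SPEC.** -/
theorem t_SPEC : S_SPEC := by
  intro α κ _ _ _ _ d F hd hF b hb a s₀
  by_cases hF0 : F = 0
  · refine ⟨0, fun _ => 0, fun k => isHomogeneous_zero _ _ _, ?_⟩
    simp [hF0]
  obtain ⟨P, hP⟩ := hb
  have hR : ∀ m : ℕ, RA (P m : Module.End ℂ (PP α κ)) := fun m => RA_all (P m).2
  choose Q A hQ hA hPQ using hR
  have hFn : ∀ n : ℕ, IsWeightedHomogeneous (wt α κ) (F ^ n) (d * n) := fun n => by
    have := IsWeightedHomogeneous.pow hF n
    rwa [smul_eq_mul, mul_comm] at this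
  obtain ⟨G, hG⟩ : ∃ G : κ → ℕ → PP α κ, G = fun (k : κ) (s : ℕ) =>
      ∑ m ∈ P.support, ((s : ℂ) ^ m) • Q m k (F ^ (s + 1)) := ⟨_, rfl⟩
  have hSh : ∀ k, Sh F (G k) := by
    intro k
    rw [hG]
    refine Sh.sum _ fun m _ => ?_
    refine Sh.smul (Sh.weyl (hQ m k) (fun s : ℕ => F ^ (s + 1)) ⟨0, fun _ => 1, PF.const 1, fun s => ?_⟩) m
    simp
  obtain ⟨N, h, h1, h2⟩ := Sh.common hSh
  obtain ⟨H, hH⟩ : ∃ H : κ → ℂ → PP α κ, H = fun k s =>
      weightedHomogeneousComponent (wt α κ) (d * N + 1) (h k s) := ⟨_, rfl⟩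
  have hHPF : ∀ k, PF (H k) := fun k => by
    rw [hH]
    exact (h1 k).lin _
  obtain ⟨g, hg⟩ : ∃ g : κ → ℕ → PP α κ, g = fun k s =>
      weightedHomogeneousComponent (wt α κ) (d * s + 1) (G k s) := ⟨_, rfl⟩
  have h3 : ∀ k, ∀ s : ℕ, g k s * F ^ (N + 1) = F ^ (s + 1) * H k s := by
    intro k s
    have e1 := congrArg (weightedHomogeneousComponent (wt α κ) (d * s + 1 + d * (N + 1))) (h2 k s)
    rw [whc_mul _ (hFn (N + 1)), mul_comm (F ^ (s + 1))] at e1
    have e2 : d * s + 1 + d * (N + 1) = d * N + 1 + d * (s + 1) := by ring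
    rw [e2, whc_mul _ (hFn (s + 1))] at e1
    rw [hg, hH]
    beta_reduce
    rw [e1, mul_comm]
  have h4 : ∀ k, ∀ s : ℕ, g k s * F ^ N = F ^ s * H k s := by
    intro k s
    refine mul_right_cancel₀ hF0 ?_
    have := h3 k s
    rw [pow_succ, pow_succ] at this
    rw [mul_assoc, this]
    ring
  have h5 : ∀ s : ℕ, C (b.eval (s : ℂ)) * F ^ s = ∑ k, pderiv (Sum.inr k) (g k s) := by
    intro s
    have e1 := congrArg (weightedHomogeneousComponent (wt α κ) (d * s)) (hP s)
    rw [weightedHomogeneousComponent_C_mul, (hFn s).weightedHomogeneousComponent_same,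
      Finsupp.sum, map_sum] at e1
    rw [e1, hg, hG]
    beta_reduce
    have e2 : ∀ m ∈ P.support, weightedHomogeneousComponent (wt α κ) (d * s)
        (((s : ℂ) ^ m) • (P m : Module.End ℂ (PP α κ)) (F ^ (s + 1))) =
        ∑ k, ((s : ℂ) ^ m) • pderiv (Sum.inr k)
          (weightedHomogeneousComponent (wt α κ) (d * s + 1) (Q m k (F ^ (s + 1)))) := by
      intro m _
      rw [map_smul, whc_RA (hA m) (hPQ m) (n := d * (s + 1)) (by nlinarith) (hFn (s + 1)),
        Finset.smul_sum]
    rw [Finset.sum_congr rfl e2, Finset.sum_comm]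
    refine Finset.sum_congr rfl fun k _ => ?_
    rw [map_sum, map_sum]
    refine Finset.sum_congr rfl fun m _ => ?_
    rw [map_smul, Derivation.map_smul]
  have h6 : ∀ s : ℕ, C (b.eval (s : ℂ)) * F ^ (N + 1) =
      ∑ k, (F * pd (Sum.inr k) (H k s) + C ((s : ℂ) - N) * (pd (Sum.inr k) F * H k s)) := by
    intro s
    refine mul_left_cancel₀ (pow_ne_zero s hF0) ?_
    have e0 : F ^ s * (C (b.eval (s : ℂ)) * F ^ (N + 1)) =
        (C (b.eval (s : ℂ)) * F ^ s) * F ^ (N + 1) := by ring
    rw [e0, h5, Finset.sum_mul, Finset.mul_sum]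
    refine Finset.sum_congr rfl fun k _ => ?_
    have e1 := congrArg (fun f => pderiv (Sum.inr k) f) (h3 k s)
    simp only [Derivation.leibniz, Derivation.leibniz_pow, smul_eq_mul, nsmul_eq_mul,
      add_tsub_cancel_right] at e1
    rw [pd_apply, pd_apply]
    have e2 : pderiv (Sum.inr k) (g k s) * F ^ (N + 1) =
        (g k s * (((N + 1 : ℕ) : PP α κ) * (F ^ N * pderiv (Sum.inr k) F)) +
          F ^ (N + 1) * pderiv (Sum.inr k) (g k s)) -
        ((N + 1 : ℕ) : PP α κ) * (g k s * F ^ N) * pderiv (Sum.inr k) F := by ring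
    rw [e2, e1, h4]
    have h7 : (C (s : ℂ) : PP α κ) = (s : PP α κ) := map_natCast C s
    have h8 : (C (N : ℂ) : PP α κ) = (N : PP α κ) := map_natCast C N
    rw [C_sub, h7, h8]
    push_cast
    ring
  have h7 : ∀ s : ℂ, C (b.eval s) * F ^ (N + 1) =
      ∑ k, (F * pd (Sum.inr k) (H k s) + C (s - N) * (pd (Sum.inr k) F * H k s)) := by
    refine fun s => PF.ext (f := fun s => C (b.eval s) * F ^ (N + 1)) (g := fun s =>
      ∑ k, (F * pd (Sum.inr k) (H k s) + C (s - N) * (pd (Sum.inr k) F * H k s))) ?_ ?_ ?_ s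
    · exact (PF.poly b).mul (PF.const _)
    · refine PF.sum _ fun k _ => ?_
      refine ((PF.const F).mul ((hHPF k).lin (pd (Sum.inr k)))).add ?_
      have e1 := PF.poly (σ := α ⊕ κ) (Polynomial.X - Polynomial.C (N : ℂ))
      simp only [Polynomial.eval_sub, Polynomial.eval_X, Polynomial.eval_C] at e1
      exact e1.mul ((PF.const _).mul (hHPF k))
    · exact h6
  refine ⟨N, fun k => sp a (H k s₀), fun k => ?_, ?_⟩
  · refine sp_hom a ?_
    rw [hH]
    exact weightedHomogeneousComponent_isWeightedHomogeneous _ _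
  · have e1 := congrArg (sp a) (h7 s₀)
    rw [map_mul, map_pow, map_sum] at e1
    have e2 : ∀ c : ℂ, sp (κ := κ) a (C c) = C c := fun c => by
      rw [← algebraMap_eq, AlgHom.commutes]
      rfl
    rw [e2] at e1
    rw [e1]
    refine Finset.sum_congr rfl fun k _ => ?_
    rw [map_add, map_mul, map_mul, map_mul, e2, pd_apply, pd_apply, sp_pderiv, sp_pderiv, mul_assoc]

end Pool.Agent.K1H74.RS
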